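import Pool.Agent.MP_c69980_ag.H43.Spec10

/-!
Adding multiples of a point of a curve lowers the transcendence degree by at most one.
-/

set_option autoImplicit false

namespace Pool.Agent.MP_c69980_ag.H43

open MvPolynomial H60 Finset

section
variable {t a M : ℕ} {Θ : Pt t a → Fin M → ℂ} {k E : Subfield ℂ}

lemma indN_sub (hS : SubK Θ k) (hk : k ≤ E) {p q : Pt t a} (hp : rat (Θ p) ⊆ E)
    (hq : rat (Θ q) ⊆ E) : rat (Θ (p - q)) ⊆ E :=
  (hS.2.1 p q).trans (Subfield.closure_le.2 (Set.union_subset (Set.union_subset hk hp) hq))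

lemma indN_add (hS : SubK Θ k) (hk : k ≤ E) {p q : Pt t a} (hp : rat (Θ p) ⊆ E)
    (hq : rat (Θ q) ⊆ E) : rat (Θ (p + q)) ⊆ E := by
  have h := indN_sub hS hk hp (indN_sub hS hk (hS.1.trans hk) hq)
  rwa [zero_sub, sub_neg_eq_add] at h

lemma indN_smul (hS : SubK Θ k) (hk : k ≤ E) {q : Pt t a} (hq : rat (Θ q) ⊆ E) (N : ℕ) :
    rat (Θ (N • q)) ⊆ E := by
  induction N with
  | zero =>
    rw [zero_smul]
    exact hS.1.trans hk
  | succ N ih =>
    rw [succ_nsmul]
    exact indN_add hS hk ih hq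

lemma indN_alg (h : SInd) {F : Subfield ℂ} {n : ℕ} {s s' : Set ℂ} (hi : Ind F n s')
    (hs : s' ⊆ Subfield.closure (F ∪ s : Set ℂ)) : Ind F n s :=
  h.alg F n s (hi.mono le_rfl le_rfl fun x hx =>
    isAlgebraic_algebraMap (R := Subfield.closure (F ∪ s : Set ℂ)) (A := ℂ) ⟨x, hs hx⟩)

end

theorem sIndN (h : SInd) : SIndN := by
  intro t a M Θ k F p p₁ x m N hS hk h1 h2 hp
  have key : ∀ E : Subfield ℂ, F ≤ E → rat (Θ (p₁ + x)) ⊆ E → rat (Θ (N • x)) ⊆ E := by
    intro E hE hx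
    have h3 := indN_sub hS (hk.trans hE) hx (h1.trans hE)
    rw [add_sub_cancel_left] at h3
    exact indN_smul hS (hk.trans hE) h3 N
  constructor
  · cases m with
    | zero => exact ind_zero _ _
    | succ m =>
      by_contra hn
      have hF : F ≤ FL F (Θ (p₁ + x)) := le_FL _ _
      have h3 : ¬ Ind F (1 + 1) (FL F (Θ (p₁ + x))) := fun hi => h2 (indN_alg h hi subset_rfl)
      have h4 : ¬ Ind (FL F (Θ (p₁ + x))) (m + 1) (rat (Θ p)) := by
        intro hi
        have h5 : rat (Θ p) ⊆ FL (FL F (Θ (p₁ + x))) (Θ (p + N • x)) := by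
          have h6 := indN_sub hS (hk.trans (hF.trans (le_FL _ (Θ (p + N • x)))))
            (rat_FL _ (Θ (p + N • x)))
            (key _ (hF.trans (le_FL _ _)) ((rat_FL F _).trans (le_FL _ _)))
          rwa [add_sub_cancel_right] at h6
        exact hn ((indN_alg h hi h5).mono hF le_rfl subset_rfl)
      exact h.bound F _ 1 m _ hF h3 h4 (hp.mono le_rfl (by omega) subset_rfl)
  · have hF : F ≤ Subfield.closure (F ∪ rat (Θ p) ∪ rat (Θ (p₁ + x)) : Set ℂ) :=
      fun _ hy => Subfield.subset_closure (Or.inl (Or.inl hy))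
    exact indN_add hS (hk.trans hF) (fun _ hy => Subfield.subset_closure (Or.inl (Or.inr hy)))
      (key _ hF fun _ hy => Subfield.subset_closure (Or.inr hy))

end Pool.Agent.MP_c69980_ag.H43
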